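import Pool.Agent.Helper85.KP.StE

/-! Module EVS of project KP (the derivation). -/

set_option autoImplicit false

namespace Pool.Agent.Helper2.KP

open MeasureTheory Filter Pool.Agent.Helper52.KP Pool.Agent.Helper85.KP
open scoped ContDiff ComplexOrder Topology

/-- polynomials are determined by their values on the chart -/
private theorem evs_uniq {C : Cone} (hC : Good C) (P Q : MvPolynomial (Fin C.m) ℂ)
    (h : ∀ z ∈ C.U, ev P z * ev C.J z = ev Q z * ev C.J z) : P = Q := by
  have h1 : (P - Q) * C.Δ = 0 := by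
    apply MvPolynomial.funext
    intro z
    rw [map_mul, map_sub, map_zero]
    by_cases hz : ev C.Δ z = 0
    · rw [show MvPolynomial.eval z C.Δ = 0 from hz, mul_zero]
    · have h2 := mul_right_cancel₀ (hC.J0 z hz) (h z hz)
      rw [show MvPolynomial.eval z P = MvPolynomial.eval z Q from h2, sub_self, zero_mul]
  rcases mul_eq_zero.1 h1 with h2 | h2
  · exact sub_eq_zero.1 h2
  · exact absurd h2 hC.Δ0

theorem hEVS : StEVH → StEVF → StEVI → StIPP → StEVS := by
  intro hEVH hEVF hEVI hIPP C hC g B c hgm hgB hghom β hβ hβi hWT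
  have hcirc := hEVH C hC g B c hgm hgB hghom β hβ hWT
  have hex := hEVF C hC β hβ hβi hcirc
  choose w hwR hw using hex
  have hadd : ∀ k (f f' : C.R k), w k (f + f' : C.R k).1 (f + f').2 = w k f.1 f.2 + w k f'.1 f'.2 := by
    intro k f f'
    apply evs_uniq hC
    intro z hz
    rw [← hw k _ _ z hz, show ev (w k f.1 f.2 + w k f'.1 f'.2) z
      = ev (w k f.1 f.2) z + ev (w k f'.1 f'.2) z from map_add _ _ _, add_mul,
      ← hw k _ _ z hz, ← hw k _ _ z hz, ← Finset.sum_add_distrib]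
    apply Finset.sum_congr rfl
    intro j _
    rw [← mul_add]
    congr 1
    show MvPolynomial.eval z (MvPolynomial.pderiv j (f.1 + f'.1)) = _
    rw [map_add, map_add]
  have hsmul : ∀ k (a : ℂ) (f : C.R k), w k (a • f : C.R k).1 (a • f).2 = a • w k f.1 f.2 := by
    intro k a f
    apply evs_uniq hC
    intro z hz
    rw [← hw k _ _ z hz, show ev (a • w k f.1 f.2) z = a * ev (w k f.1 f.2) z from
      MvPolynomial.smul_eval _ _ _, mul_assoc, ← hw k _ _ z hz, Finset.mul_sum]
    apply Finset.sum_congr rfl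
    intro j _
    have h1 : ev (MvPolynomial.pderiv j (a • f : C.R k).1) z = a * ev (MvPolynomial.pderiv j f.1) z := by
      show MvPolynomial.eval z (MvPolynomial.pderiv j (a • f.1)) = _
      rw [Derivation.map_smul, MvPolynomial.smul_eval]
    rw [h1]
    ring
  let W : ∀ k, C.R k →ₗ[ℂ] C.R k := fun k =>
    { toFun := fun f => ⟨w k f.1 f.2, hwR k f.1 f.2⟩
      map_add' := fun f f' => Subtype.ext (hadd k f f')
      map_smul' := fun a f => Subtype.ext (hsmul k a f) }
  have hformula : ∀ k (f h : C.R k), ipp C (W k f) h = ∫ z in C.U, ((g z - c : ℝ) : ℂ) *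
      ev (f : MvPolynomial (Fin C.m) ℂ) z * star (ev (h : MvPolynomial (Fin C.m) ℂ) z) *
      ((‖ev C.J z‖ ^ 2 * Real.exp (-C.u z) : ℝ) : ℂ) := by
    intro k f h
    exact hEVI C hC g B c hgm hgB β hβ hβi hWT k f.1 f.2 h.1 h.2 (w k f.1 f.2) (hwR k f.1 f.2)
      (hw k f.1 f.2)
  refine ⟨W, ?_, ?_, hformula⟩
  · intro k k' f f' h hh
    apply evs_uniq hC
    intro z hz
    show ev (w (k + k') h.1 h.2) z * ev C.J z = ev (w k f.1 f.2 * f'.1 + f.1 * w k' f'.1 f'.2) z * ev C.J z
    rw [← hw _ _ _ z hz]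
    have e1 : ev (w k f.1 f.2 * f'.1 + f.1 * w k' f'.1 f'.2) z * ev C.J z
        = (ev (w k f.1 f.2) z * ev C.J z) * ev f'.1 z + ev f.1 z * (ev (w k' f'.1 f'.2) z * ev C.J z) := by
      show MvPolynomial.eval z (w k f.1 f.2 * f'.1 + f.1 * w k' f'.1 f'.2) * _ = _
      rw [map_add, map_mul, map_mul]
      ring
    rw [e1, ← hw _ _ _ z hz, ← hw _ _ _ z hz, Finset.sum_mul, Finset.mul_sum,
      ← Finset.sum_add_distrib]
    apply Finset.sum_congr rfl
    intro j _
    have h1 : ev (MvPolynomial.pderiv j h.1) z = ev (MvPolynomial.pderiv j f.1) z * ev f'.1 z +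
        ev f.1 z * ev (MvPolynomial.pderiv j f'.1) z := by
      rw [hh]
      show MvPolynomial.eval z (MvPolynomial.pderiv j (f.1 * f'.1)) = _
      rw [MvPolynomial.pderiv_mul, map_add, map_mul, map_mul]
    rw [h1]
    ring
  · intro k f h
    have h1 : ipp C (f : MvPolynomial (Fin C.m) ℂ) (W k h) = star (ipp C (W k h) f) :=
      (hIPP C hC).2.2.1 _ _
    rw [h1, hformula, hformula]
    have h2 : star (∫ z in C.U, ((g z - c : ℝ) : ℂ) *
        ev (h : MvPolynomial (Fin C.m) ℂ) z * star (ev (f : MvPolynomial (Fin C.m) ℂ) z) *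
        ((‖ev C.J z‖ ^ 2 * Real.exp (-C.u z) : ℝ) : ℂ))
        = ∫ z in C.U, star (((g z - c : ℝ) : ℂ) *
        ev (h : MvPolynomial (Fin C.m) ℂ) z * star (ev (f : MvPolynomial (Fin C.m) ℂ) z) *
        ((‖ev C.J z‖ ^ 2 * Real.exp (-C.u z) : ℝ) : ℂ)) := integral_conj.symm
    rw [h2]
    apply integral_congr_ae
    apply ae_of_all
    intro z
    simp only
    rw [star_mul', star_mul', star_mul', star_star]
    have h3 : ∀ x : ℝ, star ((x : ℝ) : ℂ) = (x : ℂ) := fun x => Complex.conj_ofReal x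
    rw [h3, h3]
    ring

end Pool.Agent.Helper2.KP
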