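import Pool.Agent.Helper52.KP.StM
import Pool.Agent.Helper29.KP.M_SCA

/-! Module EX2 of project KP (extension, general weights). -/

set_option autoImplicit false

namespace Pool.Agent.Helper2.KP

open MeasureTheory Filter
open scoped ContDiff ComplexOrder Topology
open Pool.Agent.Helper52.KP

/-- the circle accumulates at `1` -/
theorem freq_circle : ∃ᶠ c : ℂ in 𝓝[≠] (1 : ℂ), ‖c‖ = 1 := by
  have ht : Tendsto (fun t : ℝ => Complex.exp (t * Complex.I)) (𝓝[>] (0 : ℝ)) (𝓝[≠] (1 : ℂ)) := by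
    apply tendsto_nhdsWithin_iff.2
    constructor
    · have hc : Continuous fun t : ℝ => Complex.exp (t * Complex.I) := by fun_prop
      have := hc.tendsto 0
      simp only [Complex.ofReal_zero, zero_mul, Complex.exp_zero] at this
      exact this.mono_left nhdsWithin_le_nhds
    · have h1 : ∀ᶠ t : ℝ in 𝓝[>] (0 : ℝ), t ∈ Set.Ioo (0 : ℝ) 1 :=
        Ioo_mem_nhdsGT one_pos
      filter_upwards [h1] with t ht
      intro h2
      have h3 : Complex.exp (t * Complex.I) = 1 := h2
      have h4 := congrArg Complex.im h3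
      rw [Complex.exp_ofReal_mul_I_im, Complex.one_im] at h4
      have h5 : 0 < Real.sin t := Real.sin_pos_of_pos_of_lt_pi ht.1
        (lt_trans ht.2 (by linarith [Real.pi_gt_three]))
      linarith
  apply ht.frequently
  apply Eventually.frequently
  apply Eventually.of_forall
  intro t
  exact Complex.norm_exp_ofReal_mul_I t

theorem ex2_hom {m : ℕ} (w : Fin m → ℕ) (K : ℕ) (h : (Fin m → ℂ) → ℂ) (hh : Differentiable ℂ h)
    (hc : ∀ (c : ℂ) z, ‖c‖ = 1 → h (scl w c z) = c ^ K * h z) (c : ℂ) (z : Fin m → ℂ) :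
    h (scl w c z) = c ^ K * h z := by
  have hd : Differentiable ℂ fun c : ℂ => h (scl w c z) - c ^ K * h z := by
    have h1 : Differentiable ℂ fun c : ℂ => scl w c z := by
      unfold scl
      exact differentiable_pi.2 fun j => by fun_prop
    exact (hh.comp h1).sub ((differentiable_id.pow K).mul_const _)
  have hana : AnalyticOnNhd ℂ (fun c : ℂ => h (scl w c z) - c ^ K * h z) Set.univ :=
    hd.differentiableOn.analyticOnNhd isOpen_univ
  have hfr : ∃ᶠ c : ℂ in 𝓝[≠] (1 : ℂ), h (scl w c z) - c ^ K * h z = 0 := by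
    apply freq_circle.mono
    intro c hc1
    rw [hc c z hc1, sub_self]
  have h0 := hana.eqOn_zero_of_preconnected_of_frequently_eq_zero isPreconnected_univ
    (Set.mem_univ _) hfr (Set.mem_univ c)
  exact sub_eq_zero.1 h0

theorem hEX2 : StEX2 := by
  intro C hC k D B h hh hcirc hint
  refine hC.extd k h hh hcirc ⟨1, ?_⟩
  have hhom := ex2_hom C.w (k + C.jd) h hh hcirc
  have hszc : Continuous C.sz := by
    unfold Cone.sz
    exact continuous_finsetSum _ fun i _ => (MvPolynomial.continuous_eval _).norm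
  have hsz0 : ∀ z, 0 ≤ C.sz z := fun z => Finset.sum_nonneg fun i _ => norm_nonneg _
  have hszs : ∀ (c : ℂ) z, C.sz (scl C.w c z) = ‖c‖ * C.sz z := by
    intro c z
    unfold Cone.sz
    rw [Finset.mul_sum]
    apply Finset.sum_congr rfl
    intro i _
    rw [hC.hom 1 _ (hC.XR i) c z, pow_one, norm_mul]
  have hhc : Continuous h := hh.continuous
  let G : ℝ → (Fin C.m → ℂ) → ENNReal := fun s =>
    {z | C.sz z < s}.indicator fun z => ENNReal.ofReal (‖h z‖ ^ 2)
  have hGm : ∀ s, Measurable (G s) := by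
    intro s
    apply Measurable.indicator
    · exact ENNReal.measurable_ofReal.comp (hhc.norm.pow 2).measurable
    · exact measurableSet_lt hszc.measurable measurable_const
  have hscale : ∀ s : ℝ, 0 < s → ∫⁻ z, G s z
      = ENNReal.ofReal (s ^ (2 * ∑ j, C.w j) * s ^ (2 * (k + C.jd))) * ∫⁻ z, G 1 z := by
    intro s hs
    rw [Pool.Agent.Helper29.KP.sca_lint C.w hs _ (hGm s), ENNReal.ofReal_mul (by positivity), mul_assoc]
    congr 1
    rw [← lintegral_const_mul _ (hGm 1)]
    apply lintegral_congr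
    intro z
    have hns : ‖(s : ℂ)‖ = s := by rw [Complex.norm_real, Real.norm_of_nonneg hs.le]
    have e1 : C.sz (scl C.w (s : ℂ) z) < s ↔ C.sz z < 1 := by
      rw [hszs, hns]
      constructor
      · intro h1
        by_contra h2
        rw [not_lt] at h2
        nlinarith
      · intro h1
        nlinarith
    by_cases hz : C.sz z < 1
    · have hz' : C.sz (scl C.w (s : ℂ) z) < s := e1.2 hz
      have a1 : G s (scl C.w (s : ℂ) z) = ENNReal.ofReal (‖h (scl C.w (s : ℂ) z)‖ ^ 2) :=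
        Set.indicator_of_mem (show scl C.w (s : ℂ) z ∈ {z | C.sz z < s} from hz') _
      have a2 : G 1 z = ENNReal.ofReal (‖h z‖ ^ 2) :=
        Set.indicator_of_mem (show z ∈ {z | C.sz z < 1} from hz) _
      rw [a1, a2, hhom, norm_mul, norm_pow, hns, mul_pow, ← pow_mul,
        ← ENNReal.ofReal_mul (by positivity)]
      congr 2
      ring
    · have hz' : ¬ C.sz (scl C.w (s : ℂ) z) < s := fun h1 => hz (e1.1 h1)
      have a1 : G s (scl C.w (s : ℂ) z) = 0 :=
        Set.indicator_of_notMem (show scl C.w (s : ℂ) z ∉ {z | C.sz z < s} from hz') _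
      have a2 : G 1 z = 0 :=
        Set.indicator_of_notMem (show z ∉ {z | C.sz z < 1} from hz) _
      rw [a1, a2, mul_zero]
  have hfin1 : ∫⁻ z, G 1 z < ⊤ := by
    have hle : ∀ z, G 1 z ≤ ENNReal.ofReal (Real.exp |B|) *
        ENNReal.ofReal (‖h z‖ ^ 2 * Real.exp (-(B * C.sz z ^ D))) := by
      intro z
      by_cases hz : C.sz z < 1
      · have a2 : G 1 z = ENNReal.ofReal (‖h z‖ ^ 2) :=
          Set.indicator_of_mem (show z ∈ {z | C.sz z < 1} from hz) _
        rw [a2, ← ENNReal.ofReal_mul (Real.exp_pos _).le]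
        apply ENNReal.ofReal_le_ofReal
        have h1 : B * C.sz z ^ D ≤ |B| := by
          have h2 : C.sz z ^ D ≤ 1 := pow_le_one₀ (hsz0 z) hz.le
          have h3 : 0 ≤ C.sz z ^ D := pow_nonneg (hsz0 z) _
          have h4 : B ≤ |B| := le_abs_self B
          have h5 : 0 ≤ |B| := abs_nonneg B
          nlinarith
        have h2 : 1 ≤ Real.exp |B| * Real.exp (-(B * C.sz z ^ D)) := by
          rw [← Real.exp_add]
          apply Real.one_le_exp
          linarith
        have h3 : 0 ≤ ‖h z‖ ^ 2 := by positivity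
        calc ‖h z‖ ^ 2 = ‖h z‖ ^ 2 * 1 := (mul_one _).symm
          _ ≤ ‖h z‖ ^ 2 * (Real.exp |B| * Real.exp (-(B * C.sz z ^ D))) :=
              mul_le_mul_of_nonneg_left h2 h3
          _ = Real.exp |B| * (‖h z‖ ^ 2 * Real.exp (-(B * C.sz z ^ D))) := by ring
      · have a2 : G 1 z = 0 :=
          Set.indicator_of_notMem (show z ∉ {z | C.sz z < 1} from hz) _
        rw [a2]
        exact bot_le
    refine (lintegral_mono hle).trans_lt ?_
    rw [lintegral_const_mul' _ _ ENNReal.ofReal_ne_top]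
    exact ENNReal.mul_lt_top ENNReal.ofReal_lt_top hint.lintegral_lt_top
  have hcont : Continuous fun z => ‖h z‖ ^ 2 * Real.exp (-(1 * C.sz z)) := by fun_prop
  refine ⟨hcont.aestronglyMeasurable, ?_⟩
  rw [hasFiniteIntegral_iff_ofReal (Eventually.of_forall fun z => by positivity)]
  have hpt : ∀ z, ENNReal.ofReal (‖h z‖ ^ 2 * Real.exp (-(1 * C.sz z)))
      ≤ ∑' T : ℕ, ENNReal.ofReal (Real.exp (-(T : ℝ))) * G ((T : ℝ) + 1) z := by
    intro z
    obtain ⟨T, hT⟩ : ∃ T : ℕ, T = ⌊C.sz z⌋₊ := ⟨_, rfl⟩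
    have h1 : C.sz z < (T : ℝ) + 1 := by rw [hT]; exact Nat.lt_floor_add_one _
    have h2 : (T : ℝ) ≤ C.sz z := by rw [hT]; exact Nat.floor_le (hsz0 z)
    have a2 : G ((T : ℝ) + 1) z = ENNReal.ofReal (‖h z‖ ^ 2) :=
      Set.indicator_of_mem (show z ∈ {y | C.sz y < (T : ℝ) + 1} from h1) _
    refine le_trans ?_ (ENNReal.le_tsum T)
    rw [a2, ← ENNReal.ofReal_mul (Real.exp_pos _).le]
    apply ENNReal.ofReal_le_ofReal
    rw [mul_comm]
    apply mul_le_mul_of_nonneg_right _ (by positivity)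
    apply Real.exp_le_exp.2
    linarith
  refine (lintegral_mono hpt).trans_lt ?_
  rw [lintegral_tsum fun T => ((hGm _).const_mul _).aemeasurable]
  have hterm : ∀ T : ℕ, ∫⁻ z, ENNReal.ofReal (Real.exp (-(T : ℝ))) * G ((T : ℝ) + 1) z
      = ENNReal.ofReal (Real.exp (-(T : ℝ)) *
          (((T : ℝ) + 1) ^ (2 * ∑ j, C.w j) * ((T : ℝ) + 1) ^ (2 * (k + C.jd)))) * ∫⁻ z, G 1 z := by
    intro T
    rw [lintegral_const_mul _ (hGm _), hscale _ (by positivity), ← mul_assoc,
      ← ENNReal.ofReal_mul (Real.exp_pos _).le]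
  simp only [hterm]
  rw [ENNReal.tsum_mul_right]
  apply ENNReal.mul_lt_top _ hfin1
  have hsum : Summable fun T : ℕ => Real.exp (-(T : ℝ)) *
      (((T : ℝ) + 1) ^ (2 * ∑ j, C.w j) * ((T : ℝ) + 1) ^ (2 * (k + C.jd))) := by
    have h1 := Real.summable_pow_mul_exp_neg_nat_mul (2 * ∑ j, C.w j + 2 * (k + C.jd)) one_pos
    have h2 := (summable_nat_add_iff 1).2 h1
    have h3 := h2.mul_left (Real.exp 1)
    refine h3.congr ?_
    intro T
    push_cast
    rw [← pow_add]
    have h4 : Real.exp (-(T : ℝ)) = Real.exp 1 * Real.exp (-1 * ((T : ℝ) + 1)) := by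
      rw [← Real.exp_add]
      congr 1
      ring
    rw [h4]
    ring
  exact hsum.tsum_ofReal_lt_top

end Pool.Agent.Helper2.KP
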