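import Pool.Agent.Helper52.KP.StL
import Pool.Agent.Helper88.JT.Holo

/-! Module MON of project KP (a Montel theorem). -/

set_option autoImplicit false

namespace Pool.Agent.Helper2.KP

open MeasureTheory Filter
open scoped ContDiff ComplexOrder Topology
open Pool.Agent.Helper52.KP

variable {m : ℕ}

/-- integration by parts against an entire function -/
theorem mon_ibp {h φ : (Fin m → ℂ) → ℂ} (hh : Differentiable ℂ h)
    (hφ : Tst Set.univ φ) (k : Fin m) : ∫ z, h z * db k φ z = 0 := by
  have hhs : ContDiff ℝ ∞ h := (Pool.Agent.Helper88.JT.contDiff hh).restrict_scalars ℝ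
  obtain ⟨hφ1, hφ2, -⟩ := hφ
  have hhd : Differentiable ℝ h := hhs.differentiable (by norm_cast)
  have hφd : Differentiable ℝ φ := hφ1.differentiable (by norm_cast)
  have hhc : Continuous fun z => fderiv ℝ h z := hhs.continuous_fderiv (by norm_cast)
  have hφc : Continuous fun z => fderiv ℝ φ z := hφ1.continuous_fderiv (by norm_cast)
  have key : ∀ v : Fin m → ℂ, ∫ z, h z * fderiv ℝ φ z v = - ∫ z, fderiv ℝ h z v * φ z := by
    intro v
    have hcv : Continuous fun z => fderiv ℝ h z v := by fun_prop
    have hcv' : Continuous fun z => fderiv ℝ φ z v := by fun_prop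
    have hsupp : HasCompactSupport fun z => fderiv ℝ φ z v := hφ2.fderiv_apply ℝ v
    apply integral_mul_fderiv_eq_neg_fderiv_mul_of_integrable
    · exact (hcv.mul hφ1.continuous).integrable_of_hasCompactSupport hφ2.mul_left
    · exact (hhs.continuous.mul hcv').integrable_of_hasCompactSupport hsupp.mul_left
    · exact (hhs.continuous.mul hφ1.continuous).integrable_of_hasCompactSupport hφ2.mul_left
    · intro x _
      exact hhd x
    · intro x _
      exact hφd x
  have hint : ∀ v : Fin m → ℂ, Integrable fun z => h z * fderiv ℝ φ z v := by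
    intro v
    have hcv' : Continuous fun z => fderiv ℝ φ z v := by fun_prop
    have hsupp : HasCompactSupport fun z => fderiv ℝ φ z v := hφ2.fderiv_apply ℝ v
    exact (hhs.continuous.mul hcv').integrable_of_hasCompactSupport hsupp.mul_left
  have hI : ∀ z, fderiv ℝ h z (Pi.single k Complex.I) = Complex.I * fderiv ℝ h z (Pi.single k 1) := by
    intro z
    have h1 : fderiv ℝ h z = (fderiv ℂ h z).restrictScalars ℝ :=
      ((hh z).hasFDerivAt.restrictScalars ℝ).fderiv
    rw [h1]
    show fderiv ℂ h z (Pi.single k Complex.I) = Complex.I * fderiv ℂ h z (Pi.single k 1)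
    have h2 : (Pi.single k Complex.I : Fin m → ℂ) = Complex.I • (Pi.single k 1 : Fin m → ℂ) := by
      rw [← Pi.single_smul, smul_eq_mul, mul_one]
    rw [h2, map_smul, smul_eq_mul]
  have e1 : (fun z => h z * db k φ z)
      = fun z => (1 / 2 : ℂ) * (h z * fderiv ℝ φ z (Pi.single k 1))
        + (Complex.I / 2) * (h z * fderiv ℝ φ z (Pi.single k Complex.I)) := by
    funext z
    unfold db
    ring
  rw [e1, integral_add ((hint _).const_mul _) ((hint _).const_mul _), integral_const_mul,
    integral_const_mul, key, key]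
  have e2 : (fun z => fderiv ℝ h z (Pi.single k Complex.I) * φ z)
      = fun z => Complex.I * (fderiv ℝ h z (Pi.single k 1) * φ z) := by
    funext z
    rw [hI z]
    ring
  rw [e2, integral_const_mul]
  have hII : Complex.I * Complex.I = -1 := Complex.I_mul_I
  linear_combination (-(1 / 2 : ℂ) * ∫ z, fderiv ℝ h z (Pi.single k 1) * φ z) * hII

theorem hMON (hWKC : StWKC) (hWEY : StWEY) (hSUP : StSUP) : StMON := by
  intro m h hh hB
  have hcont : ∀ i, Continuous (h i) := fun i => (hh i).continuous
  have hint2 : ∀ i (K : Set (Fin m → ℂ)), IsCompact K → IntegrableOn (fun z => ‖h i z‖ ^ 2) K := by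
    intro i K hK
    exact (((hcont i).norm.pow 2).continuousOn).integrableOn_compact hK
  obtain ⟨σ, w, hσ, hw, hwc⟩ := hWKC m 1 Set.univ isOpen_univ (fun i _ => h i)
    (fun i _ => (hcont i).aestronglyMeasurable)
    (by
      intro K _ hK
      obtain ⟨B, hB'⟩ := hB K hK
      refine ⟨B, ?_⟩
      filter_upwards [hB'] with i hi
      intro _
      exact ⟨hint2 i K hK, hi⟩)
  have hWD : ∀ k, WD Set.univ k (w 0) (fun _ => 0) := by
    intro k φ hφ
    have hK : IsCompact (tsupport φ) := hφ.2.1
    have hdbz : ∀ z, z ∉ tsupport φ → db k φ z = 0 := by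
      intro z hz
      have h0 : fderiv ℝ φ z = 0 := fderiv_of_notMem_tsupport ℝ hz
      unfold db
      rw [h0]
      simp
    have hdbc : Continuous fun z => db k φ z := by
      have hφc : Continuous fun z => fderiv ℝ φ z := hφ.1.continuous_fderiv (by norm_cast)
      unfold db
      fun_prop
    have hmem : MemLp (fun z => db k φ z) 2 (volume.restrict (tsupport φ)) := by
      have hs : HasCompactSupport fun z => db k φ z :=
        HasCompactSupport.intro hK hdbz
      exact (hdbc.memLp_of_hasCompactSupport hs).restrict _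
    have hlim := hwc (tsupport φ) (Set.subset_univ _) hK (fun z => db k φ z) hmem 0
    have hz : ∀ f : (Fin m → ℂ) → ℂ, ∫ z in tsupport φ, f z * db k φ z = ∫ z, f z * db k φ z := by
      intro f
      apply setIntegral_eq_integral_of_forall_compl_eq_zero
      intro z hz
      rw [hdbz z hz, mul_zero]
    have hconst : ∀ i, ∫ z in tsupport φ, h (σ i) z * db k φ z = 0 := by
      intro i
      rw [hz]
      exact mon_ibp (hh (σ i)) hφ k
    have h0 : ∫ z in tsupport φ, w 0 z * db k φ z = 0 := by
      have h1 : Tendsto (fun i => ∫ z in tsupport φ, h (σ i) z * db k φ z) atTop (𝓝 0) := by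
        simp only [hconst]
        exact tendsto_const_nhds
      exact tendsto_nhds_unique hlim h1
    rw [Measure.restrict_univ, ← hz, h0]
    simp
  obtain ⟨h', hh', hwh'⟩ := hWEY m Set.univ isOpen_univ (w 0) (hw 0) hWD
  have hh'd : Differentiable ℂ h' := differentiableOn_univ.1 hh'
  rw [Measure.restrict_univ] at hwh'
  refine ⟨σ, h', hσ, hh'd, ?_⟩
  intro z
  have hK : IsCompact (Metric.closedBall z 1) := isCompact_closedBall z 1
  have hbm : MeasurableSet (Metric.ball z (1 : ℝ)) := measurableSet_ball
  have hsub : Metric.ball z (1 : ℝ) ⊆ Metric.closedBall z 1 := Metric.ball_subset_closedBall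
  let φ : (Fin m → ℂ) → ℂ := (Metric.ball z (1 : ℝ)).indicator fun _ => 1
  have hφm : MemLp φ 2 (volume.restrict (Metric.closedBall z 1)) := by
    apply MemLp.indicator hbm
    have : IsFiniteMeasure (volume.restrict (Metric.closedBall z (1 : ℝ))) :=
      ⟨by rw [Measure.restrict_apply_univ]; exact hK.measure_lt_top⟩
    exact memLp_const 1
  have hlim := hwc (Metric.closedBall z 1) (Set.subset_univ _) hK φ hφm 0
  have hball : ∀ f : (Fin m → ℂ) → ℂ,
      ∫ x in Metric.closedBall z 1, f x * φ x = ∫ x in Metric.ball z 1, f x := by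
    intro f
    have e1 : (fun x => f x * φ x) = (Metric.ball z (1 : ℝ)).indicator f := by
      funext x
      by_cases hx : x ∈ Metric.ball z (1 : ℝ)
      · simp only [φ, Set.indicator_of_mem hx, mul_one]
      · simp only [φ, Set.indicator_of_notMem hx, mul_zero]
    rw [e1, setIntegral_indicator hbm, Set.inter_eq_self_of_subset_right hsub]
  simp only [hball] at hlim
  have hsup : ∀ f : (Fin m → ℂ) → ℂ, Differentiable ℂ f →
      (((Real.pi * 1 ^ 2) ^ m : ℝ) : ℂ) * f z = ∫ x in Metric.ball z 1, f x := by
    intro f hf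
    apply (hSUP m z 1 one_pos f hf.differentiableOn ?_).1
    exact ((((hf.continuous).norm.pow 2).continuousOn).integrableOn_compact hK).mono_set hsub
  have hwint : ∫ x in Metric.ball z 1, w 0 x = ∫ x in Metric.ball z 1, h' x :=
    integral_congr_ae (ae_restrict_of_ae hwh')
  rw [hwint, ← hsup h' hh'd] at hlim
  have e2 : (fun i => ∫ x in Metric.ball z 1, h (σ i) x)
      = fun i => (((Real.pi * 1 ^ 2) ^ m : ℝ) : ℂ) * h (σ i) z := by
    funext i
    rw [hsup (h (σ i)) (hh (σ i))]
  rw [e2] at hlim
  have hc : (((Real.pi * 1 ^ 2) ^ m : ℝ) : ℂ) ≠ 0 := by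
    have : (0 : ℝ) < (Real.pi * 1 ^ 2) ^ m := by positivity
    exact_mod_cast this.ne'
  have h3 := hlim.const_mul ((((Real.pi * 1 ^ 2) ^ m : ℝ) : ℂ))⁻¹
  simpa only [inv_mul_cancel_left₀ hc] using h3

end Pool.Agent.Helper2.KP
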