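import Pool.Agent.Helper68.KP.StS

/-! Module ONB of project KP, chapter S (orthonormal coordinates). -/

set_option autoImplicit false

namespace Pool.Agent.Helper2.KP

open Pool.Agent.Helper52.KP Pool.Agent.Helper68.KP Filter Topology Matrix

/-- orthonormal coordinates for a positive Hermitian form -/
theorem onb_gen (K : Type) [AddCommGroup K] [Module ℂ K] [FiniteDimensional ℂ K] (ip : K → K → ℂ)
    (hadd : ∀ f f' g, ip (f + f') g = ip f g + ip f' g) (hsmul : ∀ (c : ℂ) f g, ip (c • f) g = c * ip f g)
    (hsymm : ∀ f g, ip g f = star (ip f g)) (hpos : ∀ f, f ≠ 0 → 0 < (ip f f).re) :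
    ∃ φ : K ≃ₗ[ℂ] (Fin (Module.finrank ℂ K) → ℂ), ∀ f g : K, ip f g = ∑ i, φ f i * star (φ g i) := by
  have h0 : ∀ g, ip 0 g = 0 := by
    intro g
    have := hsmul 0 0 g
    rwa [zero_smul, zero_mul] at this
  let core : InnerProductSpace.Core ℂ K :=
    { inner := fun f g => ip g f
      conj_inner_symm := fun f g => (hsymm f g).symm
      re_inner_nonneg := by
        intro f
        by_cases hf : f = 0
        · show 0 ≤ (ip f f).re
          rw [hf, h0]
          exact le_refl _
        · exact (hpos f hf).le
      add_left := by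
        intro x y z
        show ip z (x + y) = ip z x + ip z y
        rw [hsymm (x + y) z, hadd, star_add, ← hsymm, ← hsymm]
      smul_left := by
        intro x y r
        show ip y (r • x) = (starRingEnd ℂ) r * ip y x
        rw [hsymm (r • x) y, hsmul, star_mul', ← hsymm]
        rfl
      definite := by
        intro x hx
        by_contra hne
        have h1 := hpos x hne
        have h2 : ip x x = 0 := hx
        rw [h2] at h1
        exact lt_irrefl _ h1 }
  letI : NormedAddCommGroup K := core.toNormedAddCommGroup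
  letI : InnerProductSpace ℂ K := InnerProductSpace.ofCore core.toCore
  let b := stdOrthonormalBasis ℂ K
  refine ⟨b.repr.toLinearEquiv.trans (WithLp.linearEquiv 2 ℂ (Fin (Module.finrank ℂ K) → ℂ)), ?_⟩
  intro f g
  have h1 : ip f g = inner ℂ g f := rfl
  rw [h1, ← b.repr.inner_map_map, PiLp.inner_apply]
  apply Finset.sum_congr rfl
  intro i _
  rfl

theorem hONB : StONB := by
  intro A _ _ E ip k _ hHF
  exact onb_gen (E k) (fun f g => ip f g)
    (fun f f' g => hHF.add k f.1 f.2 f'.1 f'.2 g.1 g.2)
    (fun c f g => hHF.smul k c f.1 f.2 g.1 g.2)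
    (fun f g => hHF.symm k f.1 f.2 g.1 g.2)
    (fun f hf => hHF.pos k f.1 f.2 (fun h => hf (Subtype.ext h)))

end Pool.Agent.Helper2.KP
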