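import Pool.Agent.Helper52.KP.StM
import Pool.Agent.Helper88.JT.Holo

/-! Module VRP of project KP (variance inequality for `PP`). -/

set_option autoImplicit false

namespace Pool.Agent.Helper2.KP

open MeasureTheory Filter
open scoped ContDiff ComplexOrder Topology
open Pool.Agent.Helper52.KP

section

variable {m : ℕ}

theorem differentiable_evC (P : MvPolynomial (Fin m) ℂ) : Differentiable ℂ fun z => ev P z := by
  induction P using MvPolynomial.induction_on with
  | C a =>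
    simp only [ev, MvPolynomial.eval_C]
    exact differentiable_const _
  | add p q hp hq =>
    simp only [ev, map_add] at hp hq ⊢
    exact hp.add hq
  | mul_X p i hp =>
    simp only [ev, map_mul, MvPolynomial.eval_X] at hp ⊢
    exact hp.mul (differentiable_apply i)

theorem contDiff_evR (P : MvPolynomial (Fin m) ℂ) : ContDiff ℝ ∞ fun z => ev P z :=
  (Pool.Agent.Helper88.JT.contDiff (differentiable_evC P)).restrict_scalars ℝ

theorem dz_sum {ι : Type} (s : Finset ι) (j : Fin m) (f : ι → (Fin m → ℂ) → ℂ) (z : Fin m → ℂ)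
    (hf : ∀ i ∈ s, DifferentiableAt ℝ (f i) z) :
    dz j (fun z => ∑ i ∈ s, f i z) z = ∑ i ∈ s, dz j (f i) z := by
  unfold dz
  rw [fderiv_fun_sum hf]
  simp only [_root_.sum_apply]
  rw [Finset.mul_sum, ← Finset.sum_sub_distrib, Finset.sum_div]

theorem db_sum {ι : Type} (s : Finset ι) (j : Fin m) (f : ι → (Fin m → ℂ) → ℂ) (z : Fin m → ℂ)
    (hf : ∀ i ∈ s, DifferentiableAt ℝ (f i) z) :
    db j (fun z => ∑ i ∈ s, f i z) z = ∑ i ∈ s, db j (f i) z := by
  unfold db
  rw [fderiv_fun_sum hf]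
  simp only [_root_.sum_apply]
  rw [Finset.mul_sum, ← Finset.sum_add_distrib, Finset.sum_div]

theorem dz_cmul (j : Fin m) (c : ℂ) (f : (Fin m → ℂ) → ℂ) (z : Fin m → ℂ)
    (hf : DifferentiableAt ℝ f z) : dz j (fun z => c * f z) z = c * dz j f z := by
  unfold dz
  rw [fderiv_const_mul hf]
  simp only [_root_.smul_apply, smul_eq_mul]
  ring

theorem db_cmul (j : Fin m) (c : ℂ) (f : (Fin m → ℂ) → ℂ) (z : Fin m → ℂ)
    (hf : DifferentiableAt ℝ f z) : db j (fun z => c * f z) z = c * db j f z := by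
  unfold db
  rw [fderiv_const_mul hf]
  simp only [_root_.smul_apply, smul_eq_mul]
  ring

theorem dz_zero (j : Fin m) (z : Fin m → ℂ) : dz j (fun _ => (0 : ℂ)) z = 0 := by
  unfold dz
  simp

/-- derivatives of `‖E‖²` -/
theorem nsq_der (hCAL : StCAL) {E : (Fin m → ℂ) → ℂ} (hE : Differentiable ℂ E) (k : Fin m)
    (z : Fin m → ℂ) : db k (fun z => E z * star (E z)) z = E z * star (dz k E z) := by
  have hEr : DifferentiableAt ℝ E z := (hE z).restrictScalars ℝ
  have hEs : DifferentiableAt ℝ (fun z => star (E z)) z := by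
    have := hEr.star
    exact this
  obtain ⟨h1, h2, h3, -, -⟩ := hCAL m k k E (fun z => star (E z)) z
  obtain ⟨-, -, -, h4, -⟩ := h1 hEr hEs
  obtain ⟨h1', -, -, -, -⟩ := hCAL m k k E E z
  obtain ⟨-, -, -, -, -, h5, -⟩ := h1' hEr hEr
  rw [h4, (h3 (hE z)).1, h5, zero_mul, zero_add]

theorem nsq_hes (hCAL : StCAL) {E : (Fin m → ℂ) → ℂ} (hE : Differentiable ℂ E) (j k : Fin m)
    (z : Fin m → ℂ) :
    dz j (fun z => E z * star (dz k E z)) z = dz j E z * star (dz k E z) ∧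
    DifferentiableAt ℝ (fun z => E z * star (dz k E z)) z := by
  have hEc : ContDiff ℝ ∞ E := (Pool.Agent.Helper88.JT.contDiff hE).restrict_scalars ℝ
  have hEr : DifferentiableAt ℝ E z := (hE z).restrictScalars ℝ
  have hdk : ContDiffOn ℝ ∞ (dz k E) Set.univ :=
    ((hCAL m k k E E z).2.2.2.2 Set.univ isOpen_univ hEc.contDiffOn).1
  have hdkd : DifferentiableAt ℝ (dz k E) z :=
    ((contDiffOn_univ.1 hdk).differentiable (by norm_cast)) z
  have hs : DifferentiableAt ℝ (fun z => star (dz k E z)) z := hdkd.star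
  refine ⟨?_, hEr.mul hs⟩
  obtain ⟨-, -, h3, -, -⟩ := (hCAL m j j E (fun z => star (dz k E z)) z).1 hEr hs
  have h4 : dz j (fun z => star (dz k E z)) z = star (db j (dz k E) z) :=
    ((hCAL m j j (dz k E) (dz k E) z).1 hdkd hdkd).2.2.2.2.1
  have h5 : db j (dz k E) z = dz k (db j E) z := by
    have := ((hCAL m k j E E z).2.2.2.1 (hEc.contDiffAt.of_le (by norm_cast))).1
    exact this
  have h6 : db j E = fun _ => 0 := by
    funext y
    exact ((hCAL m j j E E y).2.2.1 (hE y)).1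
  rw [h3, h4, h5, h6, dz_zero, star_zero, mul_zero, add_zero]

/-- the Hessian of `PP` -/
theorem PP_hes (hCAL : StCAL) {N : ℕ} (s : Fin N → MvPolynomial (Fin m) ℂ) (lam : Fin N → ℕ)
    (t : ℝ) (z : Fin m → ℂ) (j k : Fin m) : hes (PP s lam t) z j k =
      ∑ i, (Real.exp (t * lam i) : ℂ) *
        (dz j (fun z => ev (s i) z) z * star (dz k (fun z => ev (s i) z) z)) := by
  have hE : ∀ i, Differentiable ℂ fun z => ev (s i) z := fun i => differentiable_evC (s i)
  have hEr : ∀ i z, DifferentiableAt ℝ (fun z => ev (s i) z) z := fun i z =>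
    (hE i z).restrictScalars ℝ
  have e1 : cf (PP s lam t) = fun z => ∑ i, (Real.exp (t * lam i) : ℂ) *
      ((fun z => ev (s i) z * star (ev (s i) z)) z) := by
    funext y
    show ((PP s lam t y : ℝ) : ℂ) = _
    unfold PP
    push_cast
    apply Finset.sum_congr rfl
    intro i _
    have h1 : ev (s i) y * star (ev (s i) y) = ((‖ev (s i) y‖ : ℂ)) ^ 2 := Complex.mul_conj' _
    simp only [h1]
  have e2 : db k (cf (PP s lam t)) = fun z => ∑ i, (Real.exp (t * lam i) : ℂ) *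
      ((fun z => ev (s i) z * star (dz k (fun z => ev (s i) z) z)) z) := by
    funext y
    rw [e1, db_sum]
    · apply Finset.sum_congr rfl
      intro i _
      rw [db_cmul]
      · rw [nsq_der hCAL (hE i)]
      · exact (hEr i y).mul (hEr i y).star
    · intro i _
      exact ((hEr i y).mul (hEr i y).star).const_mul _
  show dz j (db k (cf (PP s lam t))) z = _
  rw [e2, dz_sum]
  · apply Finset.sum_congr rfl
    intro i _
    rw [dz_cmul]
    · rw [(nsq_hes hCAL (hE i) j k z).1]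
    · exact (nsq_hes hCAL (hE i) j k z).2
  · intro i _
    exact ((nsq_hes hCAL (hE i) j k z).2).const_mul _

theorem PP_hf (hCAL : StCAL) {N : ℕ} (s : Fin N → MvPolynomial (Fin m) ℂ) (lam : Fin N → ℕ)
    (t : ℝ) (z ξ : Fin m → ℂ) : hf (hes (PP s lam t) z) ξ =
      ∑ i, Real.exp (t * lam i) * ‖∑ j, dz j (fun z => ev (s i) z) z * ξ j‖ ^ 2 := by
  unfold hf
  have e1 : ∑ j, ∑ k, hes (PP s lam t) z j k * ξ j * star (ξ k)
      = ∑ i, (Real.exp (t * lam i) : ℂ) *
        ((∑ j, dz j (fun z => ev (s i) z) z * ξ j) *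
          star (∑ j, dz j (fun z => ev (s i) z) z * ξ j)) := by
    have e2 : ∀ i : Fin N, (Real.exp (t * lam i) : ℂ) *
        ((∑ j, dz j (fun z => ev (s i) z) z * ξ j) *
          star (∑ j, dz j (fun z => ev (s i) z) z * ξ j))
        = ∑ j, ∑ k, (Real.exp (t * lam i) : ℂ) *
          (dz j (fun z => ev (s i) z) z * star (dz k (fun z => ev (s i) z) z)) * ξ j *
            star (ξ k) := by
      intro i
      rw [star_sum, Finset.sum_mul_sum, Finset.mul_sum]
      apply Finset.sum_congr rfl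
      intro j _
      rw [Finset.mul_sum]
      apply Finset.sum_congr rfl
      intro k _
      rw [star_mul']
      ring
    simp only [e2]
    symm
    rw [Finset.sum_comm]
    apply Finset.sum_congr rfl
    intro j _
    rw [Finset.sum_comm]
    apply Finset.sum_congr rfl
    intro k _
    rw [PP_hes hCAL, Finset.sum_mul, Finset.sum_mul]
  rw [e1, Complex.re_sum]
  apply Finset.sum_congr rfl
  intro i _
  have h1 : (∑ j, dz j (fun z => ev (s i) z) z * ξ j) *
      star (∑ j, dz j (fun z => ev (s i) z) z * ξ j)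
      = ((‖∑ j, dz j (fun z => ev (s i) z) z * ξ j‖ ^ 2 : ℝ) : ℂ) := by
    push_cast
    exact Complex.mul_conj' _
  rw [h1, ← Complex.ofReal_mul, Complex.ofReal_re]

theorem PP_psd (hCAL : StCAL) {N : ℕ} (s : Fin N → MvPolynomial (Fin m) ℂ) (lam : Fin N → ℕ)
    (t : ℝ) (z : Fin m → ℂ) : Psd (hes (PP s lam t) z) := by
  constructor
  · ext j k
    rw [Matrix.conjTranspose_apply, PP_hes hCAL, PP_hes hCAL, star_sum]
    apply Finset.sum_congr rfl
    intro i _
    rw [star_mul', star_mul', star_star]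
    have : star ((Real.exp (t * lam i) : ℝ) : ℂ) = ((Real.exp (t * lam i) : ℝ) : ℂ) :=
      Complex.conj_ofReal _
    rw [this]
    ring
  · intro ξ
    rw [PP_hf hCAL]
    exact Finset.sum_nonneg fun i _ => by positivity

/-- the antiholomorphic derivatives of `PPn 1 * J` -/
theorem G_db (hCAL : StCAL) {N : ℕ} (s : Fin N → MvPolynomial (Fin m) ℂ) (lam : Fin N → ℕ)
    (t : ℝ) (J : MvPolynomial (Fin m) ℂ) (z : Fin m → ℂ) (j : Fin m) :
    db j (fun z => ((PPn 1 s lam t z : ℝ) : ℂ) * ev J z) z =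
      (∑ i, ((lam i : ℝ) * Real.exp (t * lam i) : ℂ) *
        (ev (s i) z * star (dz j (fun z => ev (s i) z) z))) * ev J z := by
  have hE : ∀ i, Differentiable ℂ fun z => ev (s i) z := fun i => differentiable_evC (s i)
  have hEr : ∀ i z, DifferentiableAt ℝ (fun z => ev (s i) z) z := fun i z =>
    (hE i z).restrictScalars ℝ
  have e1 : (fun z => ((PPn 1 s lam t z : ℝ) : ℂ)) = fun z => ∑ i,
      ((lam i : ℝ) * Real.exp (t * lam i) : ℂ) *
      ((fun z => ev (s i) z * star (ev (s i) z)) z) := by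
    funext y
    unfold PPn
    push_cast
    apply Finset.sum_congr rfl
    intro i _
    have h1 : ev (s i) y * star (ev (s i) y) = ((‖ev (s i) y‖ : ℂ)) ^ 2 := Complex.mul_conj' _
    simp only [h1, pow_one]
  have hd1 : DifferentiableAt ℝ (fun z => ((PPn 1 s lam t z : ℝ) : ℂ)) z := by
    rw [e1]
    apply DifferentiableAt.fun_sum
    intro i _
    exact ((hEr i z).mul (hEr i z).star).const_mul _
  have hJ : Differentiable ℂ fun z => ev J z := differentiable_evC J
  have hJr : DifferentiableAt ℝ (fun z => ev J z) z := (hJ z).restrictScalars ℝ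
  obtain ⟨-, -, -, h4, -⟩ := (hCAL m j j (fun z => ((PPn 1 s lam t z : ℝ) : ℂ)) (fun z => ev J z) z).1 hd1 hJr
  have h5 : db j (fun z => ev J z) z = 0 := ((hCAL m j j (fun z => ev J z) (fun z => ev J z) z).2.2.1 (hJ z)).1
  rw [h4, h5, mul_zero, add_zero, e1, db_sum]
  · congr 1
    apply Finset.sum_congr rfl
    intro i _
    rw [db_cmul]
    · rw [nsq_der hCAL (hE i)]
    · exact (hEr i z).mul (hEr i z).star
  · intro i _
    exact ((hEr i z).mul (hEr i z).star).const_mul _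

theorem G_bound (hCAL : StCAL) {N : ℕ} (s : Fin N → MvPolynomial (Fin m) ℂ) (lam : Fin N → ℕ)
    (t : ℝ) (J : MvPolynomial (Fin m) ℂ) (z ξ : Fin m → ℂ) :
    ‖∑ j, db j (fun z => ((PPn 1 s lam t z : ℝ) : ℂ) * ev J z) z * star (ξ j)‖ ^ 2 ≤
      (PPn 2 s lam t z * ‖ev J z‖ ^ 2) * hf (hes (PP s lam t) z) ξ := by
  rw [PP_hf hCAL]
  have e1 : ∑ j, db j (fun z => ((PPn 1 s lam t z : ℝ) : ℂ) * ev J z) z * star (ξ j)
      = (∑ i, ((lam i : ℝ) * Real.exp (t * lam i) : ℂ) * (ev (s i) z *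
          star (∑ j, dz j (fun z => ev (s i) z) z * ξ j))) * ev J z := by
    have e2 : ∀ j, db j (fun z => ((PPn 1 s lam t z : ℝ) : ℂ) * ev J z) z * star (ξ j)
        = ∑ i, ((lam i : ℝ) * Real.exp (t * lam i) : ℂ) *
        (ev (s i) z * star (dz j (fun z => ev (s i) z) z)) * ev J z * star (ξ j) := by
      intro j
      rw [G_db hCAL, Finset.sum_mul, Finset.sum_mul]
    simp only [e2]
    rw [Finset.sum_comm, Finset.sum_mul]
    apply Finset.sum_congr rfl
    intro i _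
    rw [star_sum, Finset.mul_sum, Finset.mul_sum, Finset.sum_mul]
    apply Finset.sum_congr rfl
    intro j _
    rw [star_mul']
    ring
  rw [e1, norm_mul, mul_pow]
  obtain ⟨η, hη⟩ : ∃ η : Fin N → ℝ, ∀ i, η i = ‖∑ j, dz j (fun z => ev (s i) z) z * ξ j‖ :=
    ⟨_, fun i => rfl⟩
  have h1 : ‖∑ i, ((lam i : ℝ) * Real.exp (t * lam i) : ℂ) * (ev (s i) z *
          star (∑ j, dz j (fun z => ev (s i) z) z * ξ j))‖
      ≤ ∑ i, ((lam i : ℝ) * Real.exp (t * lam i / 2) * ‖ev (s i) z‖) *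
          (Real.exp (t * lam i / 2) * η i) := by
    refine (norm_sum_le _ _).trans (le_of_eq ?_)
    apply Finset.sum_congr rfl
    intro i _
    rw [norm_mul, norm_mul (ev (s i) z), norm_star, ← hη i]
    have h2 : ‖((lam i : ℝ) * Real.exp (t * lam i) : ℂ)‖ = (lam i : ℝ) * Real.exp (t * lam i) := by
      have h3 : ((lam i : ℝ) * Real.exp (t * lam i) : ℂ) = (((lam i : ℝ) * Real.exp (t * lam i) : ℝ) : ℂ) := by
        push_cast
        ring
      rw [h3, Complex.norm_real, Real.norm_of_nonneg (by positivity)]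
    rw [h2]
    have h4 : Real.exp (t * lam i) = Real.exp (t * lam i / 2) * Real.exp (t * lam i / 2) := by
      rw [← Real.exp_add]
      congr 1
      ring
    rw [h4]
    ring
  have h2 : (∑ i, ((lam i : ℝ) * Real.exp (t * lam i / 2) * ‖ev (s i) z‖) *
          (Real.exp (t * lam i / 2) * η i)) ^ 2
      ≤ (∑ i, ((lam i : ℝ) * Real.exp (t * lam i / 2) * ‖ev (s i) z‖) ^ 2) *
        ∑ i, (Real.exp (t * lam i / 2) * η i) ^ 2 := Finset.sum_mul_sq_le_sq_mul_sq _ _ _
  have h3 : ∑ i, ((lam i : ℝ) * Real.exp (t * lam i / 2) * ‖ev (s i) z‖) ^ 2 = PPn 2 s lam t z := by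
    unfold PPn
    apply Finset.sum_congr rfl
    intro i _
    have h4 : Real.exp (t * lam i) = Real.exp (t * lam i / 2) * Real.exp (t * lam i / 2) := by
      rw [← Real.exp_add]
      congr 1
      ring
    rw [h4]
    ring
  have h4 : ∑ i, (Real.exp (t * lam i / 2) * η i) ^ 2
      = ∑ i, Real.exp (t * lam i) * ‖∑ j, dz j (fun z => ev (s i) z) z * ξ j‖ ^ 2 := by
    apply Finset.sum_congr rfl
    intro i _
    have h4 : Real.exp (t * lam i) = Real.exp (t * lam i / 2) * Real.exp (t * lam i / 2) := by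
      rw [← Real.exp_add]
      congr 1
      ring
    rw [h4, ← hη i]
    ring
  rw [h3, h4] at h2
  have h5 : ‖∑ i, ((lam i : ℝ) * Real.exp (t * lam i) : ℂ) * (ev (s i) z *
          star (∑ j, dz j (fun z => ev (s i) z) z * ξ j))‖ ^ 2
      ≤ PPn 2 s lam t z * ∑ i, Real.exp (t * lam i) * ‖∑ j, dz j (fun z => ev (s i) z) z * ξ j‖ ^ 2 :=
    (pow_le_pow_left₀ (norm_nonneg _) h1 2).trans h2
  calc _ ≤ (PPn 2 s lam t z * ∑ i, Real.exp (t * lam i) *
        ‖∑ j, dz j (fun z => ev (s i) z) z * ξ j‖ ^ 2) * ‖ev J z‖ ^ 2 :=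
        mul_le_mul_of_nonneg_right h5 (by positivity)
    _ = _ := by ring

theorem L2_sub {ψ : (Fin m → ℂ) → ℝ} (hψ : Continuous ψ) {f g : (Fin m → ℂ) → ℂ}
    (hf : L2 Set.univ ψ f) (hg : L2 Set.univ ψ g) : L2 Set.univ ψ fun z => f z - g z := by
  obtain ⟨hf1, hf2⟩ := hf
  obtain ⟨hg1, hg2⟩ := hg
  refine ⟨hf1.sub hg1, ?_⟩
  have hs := (hf2.add hg2).const_mul 2
  refine Integrable.mono' hs ?_ (ae_of_all _ ?_)
  · exact ((hf1.sub hg1).norm.pow 2).mul (Real.continuous_exp.comp hψ.neg).aestronglyMeasurable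
  · intro z
    have h1 : ‖f z - g z‖ ≤ ‖f z‖ + ‖g z‖ := norm_sub_le _ _
    have h2 : 0 ≤ ‖f z - g z‖ := norm_nonneg _
    have h3 : ‖f z - g z‖ ^ 2 ≤ 2 * (‖f z‖ ^ 2 + ‖g z‖ ^ 2) := by
      nlinarith [sq_nonneg (‖f z‖ - ‖g z‖), norm_nonneg (f z), norm_nonneg (g z)]
    have h4 : 0 < Real.exp (-ψ z) := Real.exp_pos _
    rw [Real.norm_of_nonneg (by positivity)]
    simp only [Pi.add_apply]
    calc ‖f z - g z‖ ^ 2 * Real.exp (-ψ z) ≤ (2 * (‖f z‖ ^ 2 + ‖g z‖ ^ 2)) * Real.exp (-ψ z) :=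
          mul_le_mul_of_nonneg_right h3 h4.le
      _ = 2 * (‖f z‖ ^ 2 * Real.exp (-ψ z) + ‖g z‖ ^ 2 * Real.exp (-ψ z)) := by ring

end

theorem hVRP (hVAR : StVAR) (hAVG : StAVG) (hEX2 : StEX2) (hDIF : StDIF) (hNUL : StNUL)
    (hCAL : StCAL) : StVRP := by
  intro C hC D N hD s lam hspan t
  have hsR : ∀ i, s i ∈ C.R D := by
    intro i
    rw [← hspan]
    exact Submodule.subset_span (Set.mem_range_self i)
  obtain ⟨-, hq, -, -⟩ := hDIF C hC D N hD s lam hspan t
  have hres : volume.restrict C.U = (volume : Measure (Fin C.m → ℂ)) := by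
    apply Measure.restrict_eq_self_of_ae_mem
    rw [ae_iff]
    refine measure_mono_null ?_ (hNUL C.m C.Δ hC.Δ0)
    intro z hz
    by_contra h
    exact hz h
  have hsz0 : ∀ z, 0 ≤ C.sz z := fun z => Finset.sum_nonneg fun i _ => norm_nonneg _
  choose B hB using fun i => hC.bdd D (s i) (hsR i)
  obtain ⟨M, hM⟩ : ∃ M : ℕ → ℝ, ∀ n, M n = ∑ i, (lam i : ℝ) ^ n * Real.exp (t * lam i) * B i ^ 2 :=
    ⟨_, fun n => rfl⟩
  have hM0 : ∀ n, 0 ≤ M n := by
    intro n
    rw [hM]
    exact Finset.sum_nonneg fun i _ => by positivity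
  have hPn : ∀ n z, PPn n s lam t z ≤ M n * C.sz z ^ (2 * D) := by
    intro n z
    rw [hM, Finset.sum_mul]
    unfold PPn
    apply Finset.sum_le_sum
    intro i _
    have h1 : ‖ev (s i) z‖ ^ 2 ≤ B i ^ 2 * C.sz z ^ (2 * D) := by
      have h2 := pow_le_pow_left₀ (norm_nonneg _) (hB i z) 2
      calc ‖ev (s i) z‖ ^ 2 ≤ (B i * C.sz z ^ D) ^ 2 := h2
        _ = B i ^ 2 * C.sz z ^ (2 * D) := by rw [mul_pow, ← pow_mul, mul_comm D 2]
    calc (lam i : ℝ) ^ n * Real.exp (t * lam i) * ‖ev (s i) z‖ ^ 2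
        ≤ (lam i : ℝ) ^ n * Real.exp (t * lam i) * (B i ^ 2 * C.sz z ^ (2 * D)) :=
          mul_le_mul_of_nonneg_left h1 (by positivity)
      _ = _ := by ring
  have hPn0 : ∀ n z, 0 ≤ PPn n s lam t z := by
    intro n z
    unfold PPn
    exact Finset.sum_nonneg fun i _ => by positivity
  have hPP0 : ∀ z, PP s lam t z = PPn 0 s lam t z := by
    intro z
    unfold PP PPn
    apply Finset.sum_congr rfl
    intro i _
    rw [pow_zero, one_mul]
  have hevc : ∀ P : MvPolynomial (Fin C.m) ℂ, Continuous fun z => ev P z :=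
    fun P => (contDiff_evR P).continuous
  have hPc : ∀ n, Continuous (PPn n s lam t) := by
    intro n
    unfold PPn
    exact continuous_finsetSum _ fun i _ => continuous_const.mul ((hevc (s i)).norm.pow 2)
  have hPPc : Continuous (PP s lam t) := by
    have : PP s lam t = PPn 0 s lam t := funext hPP0
    rw [this]
    exact hPc 0
  have hJc : Continuous fun z => ev C.J z := hevc C.J
  -- domination
  have hdom : ∀ (F : (Fin C.m → ℂ) → ℝ) (A : ℝ) (q : ℕ), Continuous F →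
      (∀ z, |F z| ≤ A * (1 + C.sz z ^ q)) →
      Integrable fun z => F z * Real.exp (-PP s lam t z) * ‖ev C.J z‖ ^ 2 := by
    intro F A q hF hFb
    have h1 := hq q
    rw [IntegrableOn, hres] at h1
    refine (h1.const_mul A).mono' ?_ (ae_of_all _ ?_)
    · exact ((hF.mul (Real.continuous_exp.comp hPPc.neg)).mul (hJc.norm.pow 2)).aestronglyMeasurable
    · intro z
      have h2 : 0 < Real.exp (-PP s lam t z) := Real.exp_pos _
      rw [norm_mul, norm_mul, Real.norm_eq_abs, Real.norm_of_nonneg h2.le,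
        Real.norm_of_nonneg (by positivity : (0:ℝ) ≤ ‖ev C.J z‖ ^ 2)]
      calc |F z| * Real.exp (-PP s lam t z) * ‖ev C.J z‖ ^ 2
          ≤ (A * (1 + C.sz z ^ q)) * Real.exp (-PP s lam t z) * ‖ev C.J z‖ ^ 2 := by
            gcongr
            exact hFb z
        _ = _ := by ring
  have hI0 : Integrable fun z => Real.exp (-PP s lam t z) * ‖ev C.J z‖ ^ 2 := by
    have h1 := hdom (fun _ => 1) 1 0 continuous_const (by
      intro z
      rw [abs_one, pow_zero]
      norm_num)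
    simpa only [one_mul] using h1
  have hIn : ∀ n, Integrable fun z => PPn n s lam t z * Real.exp (-PP s lam t z) * ‖ev C.J z‖ ^ 2 := by
    intro n
    refine hdom (PPn n s lam t) (M n) (2 * D) (hPc n) ?_
    intro z
    rw [abs_of_nonneg (hPn0 n z)]
    refine (hPn n z).trans (mul_le_mul_of_nonneg_left ?_ (hM0 n))
    linarith
  have hI1s : Integrable fun z => PPn 1 s lam t z ^ 2 * Real.exp (-PP s lam t z) * ‖ev C.J z‖ ^ 2 := by
    refine hdom (fun z => PPn 1 s lam t z ^ 2) (M 1 ^ 2) (2 * D * 2) ((hPc 1).pow 2) ?_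
    intro z
    rw [abs_of_nonneg (by positivity)]
    calc PPn 1 s lam t z ^ 2 ≤ (M 1 * C.sz z ^ (2 * D)) ^ 2 :=
          pow_le_pow_left₀ (hPn0 1 z) (hPn 1 z) 2
      _ = M 1 ^ 2 * C.sz z ^ (2 * D * 2) := by rw [mul_pow, ← pow_mul]
      _ ≤ M 1 ^ 2 * (1 + C.sz z ^ (2 * D * 2)) :=
          mul_le_mul_of_nonneg_left (by linarith) (by positivity)
  -- smoothness
  have hψ : ContDiff ℝ ∞ (PP s lam t) := by
    unfold PP
    exact ContDiff.sum fun i _ => contDiff_const.mul ((contDiff_evR (s i)).norm_sq ℝ)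
  have hP1 : ContDiff ℝ ∞ (PPn 1 s lam t) := by
    unfold PPn
    exact ContDiff.sum fun i _ => contDiff_const.mul ((contDiff_evR (s i)).norm_sq ℝ)
  obtain ⟨G, hG⟩ : ∃ G : (Fin C.m → ℂ) → ℂ, G = fun z => ((PPn 1 s lam t z : ℝ) : ℂ) * ev C.J z :=
    ⟨_, rfl⟩
  have hGs : ContDiff ℝ ∞ G := by
    rw [hG]
    exact (Complex.ofRealCLM.contDiff.comp hP1).mul (contDiff_evR C.J)
  have hGn : ∀ z, ‖G z‖ ^ 2 = PPn 1 s lam t z ^ 2 * ‖ev C.J z‖ ^ 2 := by
    intro z
    rw [hG]
    simp only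
    rw [norm_mul, Complex.norm_real, mul_pow, Real.norm_eq_abs, sq_abs]
  have hGL2 : L2 Set.univ (PP s lam t) G := by
    refine ⟨hGs.continuous.aestronglyMeasurable, ?_⟩
    rw [integrableOn_univ]
    refine hI1s.congr (ae_of_all _ ?_)
    intro z
    simp only
    rw [hGn]
    ring
  have hκi : Integrable fun z => (PPn 2 s lam t z * ‖ev C.J z‖ ^ 2) * Real.exp (-PP s lam t z) := by
    refine (hIn 2).congr (ae_of_all _ ?_)
    intro z
    simp only
    ring
  obtain ⟨h, hh, hhL2, hle⟩ := hVAR C.m (PP s lam t) hψ (PP_psd hCAL s lam t) G hGs hGL2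
    (fun z => PPn 2 s lam t z * ‖ev C.J z‖ ^ 2)
    (fun z => mul_nonneg (hPn0 2 z) (by positivity))
    (by
      intro z ξ
      rw [hG]
      exact G_bound hCAL s lam t C.J z ξ) hκi
  have hsc : ∀ (c : ℂ), ‖c‖ = 1 → ∀ i z, ‖ev (s i) (scl C.w c z)‖ = ‖ev (s i) z‖ := by
    intro c hc i z
    rw [hC.hom D (s i) (hsR i) c z, norm_mul, norm_pow, hc, one_pow, one_mul]
  obtain ⟨h', hh', hh'c, hh'L2, hle'⟩ := hAVG C.m C.w Set.univ MeasurableSet.univ
    (fun c z _ => by simp) (PP s lam t) G h C.jd hPPc.continuousOn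
    (by
      intro c hc z _
      constructor
      · unfold PP
        apply Finset.sum_congr rfl
        intro i _
        rw [hsc c hc]
      · have h1 : PPn 1 s lam t (scl C.w c z) = PPn 1 s lam t z := by
          unfold PPn
          apply Finset.sum_congr rfl
          intro i _
          rw [hsc c hc]
        rw [hG]
        simp only
        rw [h1, hC.Jhom c z]
        ring)
    hGs.continuous.aestronglyMeasurable hh (L2_sub hPPc hGL2 hhL2)
  have hh'L : L2 Set.univ (PP s lam t) h' := by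
    have h1 := L2_sub hPPc hGL2 hh'L2
    simpa only [sub_sub_cancel] using h1
  obtain ⟨f, hfR, hfe⟩ := hEX2 C hC 0 (2 * D) (M 0) h' hh'
    (by
      intro c z hc
      rw [zero_add]
      exact hh'c c z hc)
    (by
      have h1 := hh'L.2
      rw [integrableOn_univ] at h1
      refine h1.mono' ?_ (ae_of_all _ ?_)
      · have hszc : Continuous C.sz := by
          unfold Cone.sz
          exact continuous_finsetSum _ fun i _ => (hevc _).norm
        exact ((hh'.continuous.norm.pow 2).mul (Real.continuous_exp.comp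
          (continuous_const.mul (hszc.pow _)).neg)).aestronglyMeasurable
      · intro z
        rw [Real.norm_of_nonneg (by positivity)]
        apply mul_le_mul_of_nonneg_left _ (by positivity)
        apply Real.exp_le_exp.2
        have h2 := hPn 0 z
        rw [← hPP0 z] at h2
        linarith)
  obtain ⟨c, hc⟩ := hC.cst f hfR
  have hh'e : ∀ z, h' z = c * ev C.J z := by
    intro z
    rw [hfe z, hc]
    simp only [ev, MvPolynomial.eval_C]
  -- the inequality
  have hK : ∫ z, (PPn 1 s lam t z - c.re) ^ 2 * Real.exp (-PP s lam t z) * ‖ev C.J z‖ ^ 2 ≤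
      ∫ z, PPn 2 s lam t z * Real.exp (-PP s lam t z) * ‖ev C.J z‖ ^ 2 := by
    have e1 : (fun z => (PPn 1 s lam t z - c.re) ^ 2 * Real.exp (-PP s lam t z) * ‖ev C.J z‖ ^ 2)
        = fun z => (PPn 1 s lam t z ^ 2 * Real.exp (-PP s lam t z) * ‖ev C.J z‖ ^ 2
          - (2 * c.re) * (PPn 1 s lam t z * Real.exp (-PP s lam t z) * ‖ev C.J z‖ ^ 2))
          + c.re ^ 2 * (Real.exp (-PP s lam t z) * ‖ev C.J z‖ ^ 2) := by
      funext z
      ring
    have hint : Integrable fun z => (PPn 1 s lam t z - c.re) ^ 2 * Real.exp (-PP s lam t z) *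
        ‖ev C.J z‖ ^ 2 := by
      rw [e1]
      exact (hI1s.sub ((hIn 1).const_mul _)).add (hI0.const_mul _)
    have hr := hh'L2.2
    rw [integrableOn_univ] at hr
    have h1 : ∫ z, (PPn 1 s lam t z - c.re) ^ 2 * Real.exp (-PP s lam t z) * ‖ev C.J z‖ ^ 2 ≤
        nrm Set.univ (PP s lam t) (fun z => G z - h' z) := by
      unfold nrm
      rw [Measure.restrict_univ]
      apply integral_mono hint hr
      intro z
      simp only
      rw [hG, hh'e]
      simp only
      have h2 : ((PPn 1 s lam t z : ℝ) : ℂ) * ev C.J z - c * ev C.J z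
          = (((PPn 1 s lam t z : ℝ) : ℂ) - c) * ev C.J z := by ring
      rw [h2, norm_mul, mul_pow]
      have h3 : (PPn 1 s lam t z - c.re) ^ 2 ≤ ‖((PPn 1 s lam t z : ℝ) : ℂ) - c‖ ^ 2 := by
        have h4 := Complex.abs_re_le_norm (((PPn 1 s lam t z : ℝ) : ℂ) - c)
        rw [Complex.sub_re, Complex.ofReal_re] at h4
        have h5 := pow_le_pow_left₀ (abs_nonneg _) h4 2
        rwa [sq_abs] at h5
      have h6 : 0 < Real.exp (-PP s lam t z) := Real.exp_pos _
      calc (PPn 1 s lam t z - c.re) ^ 2 * Real.exp (-PP s lam t z) * ‖ev C.J z‖ ^ 2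
          ≤ ‖((PPn 1 s lam t z : ℝ) : ℂ) - c‖ ^ 2 * Real.exp (-PP s lam t z) * ‖ev C.J z‖ ^ 2 := by
            gcongr
        _ = _ := by ring
    refine h1.trans (hle'.trans (hle.trans (le_of_eq ?_)))
    apply integral_congr_ae
    apply ae_of_all
    intro z
    simp only
    ring
  have e1 : (fun z => (PPn 1 s lam t z - c.re) ^ 2 * Real.exp (-PP s lam t z) * ‖ev C.J z‖ ^ 2)
      = fun z => (PPn 1 s lam t z ^ 2 * Real.exp (-PP s lam t z) * ‖ev C.J z‖ ^ 2
        - (2 * c.re) * (PPn 1 s lam t z * Real.exp (-PP s lam t z) * ‖ev C.J z‖ ^ 2))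
        + c.re ^ 2 * (Real.exp (-PP s lam t z) * ‖ev C.J z‖ ^ 2) := by
    funext z
    ring
  have i3 : Integrable fun z => (2 * c.re) *
      (PPn 1 s lam t z * Real.exp (-PP s lam t z) * ‖ev C.J z‖ ^ 2) := (hIn 1).const_mul _
  have i2 : Integrable fun z => c.re ^ 2 * (Real.exp (-PP s lam t z) * ‖ev C.J z‖ ^ 2) :=
    hI0.const_mul _
  have i1 : Integrable fun z => PPn 1 s lam t z ^ 2 * Real.exp (-PP s lam t z) * ‖ev C.J z‖ ^ 2 -
      (2 * c.re) * (PPn 1 s lam t z * Real.exp (-PP s lam t z) * ‖ev C.J z‖ ^ 2) := hI1s.sub i3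
  rw [e1, integral_add i1 i2, integral_sub hI1s i3, integral_const_mul, integral_const_mul] at hK
  unfold Cone.ZZ
  rw [hres]
  obtain ⟨A2, hA2⟩ : ∃ A : ℝ, A = ∫ z, PPn 1 s lam t z ^ 2 * Real.exp (-PP s lam t z) *
    ‖ev C.J z‖ ^ 2 := ⟨_, rfl⟩
  obtain ⟨A1, hA1⟩ : ∃ A : ℝ, A = ∫ z, PPn 1 s lam t z * Real.exp (-PP s lam t z) *
    ‖ev C.J z‖ ^ 2 := ⟨_, rfl⟩
  obtain ⟨K, hK'⟩ : ∃ A : ℝ, A = ∫ z, PPn 2 s lam t z * Real.exp (-PP s lam t z) *
    ‖ev C.J z‖ ^ 2 := ⟨_, rfl⟩
  obtain ⟨Z, hZ⟩ : ∃ A : ℝ, A = ∫ z, Real.exp (-PP s lam t z) * ‖ev C.J z‖ ^ 2 := ⟨_, rfl⟩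
  rw [← hA2, ← hA1, ← hK', ← hZ] at hK
  rw [← hA2, ← hA1, ← hK', ← hZ]
  have hZ0 : 0 ≤ Z := by
    rw [hZ]
    exact integral_nonneg fun z => by positivity
  nlinarith [mul_le_mul_of_nonneg_right hK hZ0, sq_nonneg (A1 - c.re * Z)]

end Pool.Agent.Helper2.KP
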