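import Pool.Agent.Helper2.KP.M_ONB

/-! Module WEX of project KP, chapter S (weighted flags of a filtration). -/

set_option autoImplicit false

namespace Pool.Agent.Helper2.KP

open Pool.Agent.Helper52.KP Pool.Agent.Helper68.KP Filter Topology Matrix

variable {N : ℕ}

/-- standard Hermitian form -/
def sip (f g : Fin N → ℂ) : ℂ := ∑ a, f a * star (g a)

private theorem sip_add (f f' g : Fin N → ℂ) : sip (f + f') g = sip f g + sip f' g := by
  unfold sip
  rw [← Finset.sum_add_distrib]
  apply Finset.sum_congr rfl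
  intro a _
  rw [Pi.add_apply, add_mul]

private theorem sip_smul (c : ℂ) (f g : Fin N → ℂ) : sip (c • f) g = c * sip f g := by
  unfold sip
  rw [Finset.mul_sum]
  apply Finset.sum_congr rfl
  intro a _
  rw [Pi.smul_apply, smul_eq_mul, mul_assoc]

private theorem sip_symm (f g : Fin N → ℂ) : sip g f = star (sip f g) := by
  unfold sip
  rw [star_sum]
  apply Finset.sum_congr rfl
  intro a _
  rw [star_mul', star_star, mul_comm]

private theorem sip_pos (f : Fin N → ℂ) (hf : f ≠ 0) : 0 < (sip f f).re := by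
  unfold sip
  have h1 : ∀ a, f a * star (f a) = ((‖f a‖ ^ 2 : ℝ) : ℂ) := by
    intro a
    push_cast
    exact Complex.mul_conj' _
  simp only [h1]
  rw [← Complex.ofReal_sum, Complex.ofReal_re]
  obtain ⟨a, ha⟩ : ∃ a, f a ≠ 0 := by
    by_contra h
    push Not at h
    exact hf (funext h)
  apply Finset.sum_pos'
  · intro i _
    positivity
  · exact ⟨a, Finset.mem_univ a, by positivity⟩

private theorem sip_zero (g : Fin N → ℂ) : sip 0 g = 0 := by
  unfold sip
  simp

private theorem sip_sum {ι : Type} (t : Finset ι) (f : ι → Fin N → ℂ) (g : Fin N → ℂ) :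
    sip (∑ i ∈ t, f i) g = ∑ i ∈ t, sip (f i) g := by
  classical
  induction t using Finset.induction_on with
  | empty => simp [sip_zero]
  | insert a t ha ih => rw [Finset.sum_insert ha, Finset.sum_insert ha, sip_add, ih]

/-- an isometry onto a subspace -/
theorem iso_of_sub (K : Submodule ℂ (Fin N → ℂ)) :
    ∃ V : Matrix (Fin N) (Fin (Module.finrank ℂ K)) ℂ, Vᴴ * V = 1 ∧
      LinearMap.range (Matrix.mulVecLin V) = K := by
  obtain ⟨φ, hφ⟩ := onb_gen K (fun f g => sip f.1 g.1) (fun f f' g => sip_add _ _ _)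
    (fun c f g => sip_smul _ _ _) (fun f g => sip_symm _ _)
    (fun f hf => sip_pos _ fun h => hf (Subtype.ext h))
  refine ⟨fun a i => (φ.symm (Pi.single i 1)).1 a, ?_, ?_⟩
  · ext i j
    have h1 := hφ (φ.symm (Pi.single j 1)) (φ.symm (Pi.single i 1))
    rw [φ.apply_symm_apply, φ.apply_symm_apply] at h1
    rw [Matrix.mul_apply, Matrix.one_apply]
    have h2 : ∑ a, (fun a i => (φ.symm (Pi.single i 1)).1 a : Matrix (Fin N) _ ℂ)ᴴ i a *
        (φ.symm (Pi.single j 1)).1 a = sip (φ.symm (Pi.single j 1)).1 (φ.symm (Pi.single i 1)).1 := by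
      unfold sip
      apply Finset.sum_congr rfl
      intro a _
      rw [Matrix.conjTranspose_apply, mul_comm]
    rw [h2, h1]
    rw [Finset.sum_eq_single i]
    · rw [Pi.single_eq_same, star_one, mul_one]
      by_cases hij : i = j
      · subst hij
        simp
      · rw [if_neg hij, Pi.single_eq_of_ne hij]
    · intro b _ hb
      rw [Pi.single_eq_of_ne hb, star_zero, mul_zero]
    · intro h
      exact absurd (Finset.mem_univ _) h
  · have key : ∀ c : Fin (Module.finrank ℂ K) → ℂ,
        (fun a i => (φ.symm (Pi.single i 1)).1 a : Matrix (Fin N) _ ℂ) *ᵥ c = (φ.symm c).1 := by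
      intro c
      have h1 : φ.symm c = ∑ i, c i • φ.symm (Pi.single i 1) := by
        conv_lhs => rw [← Finset.univ_sum_single c]
        rw [map_sum]
        apply Finset.sum_congr rfl
        intro i _
        rw [← map_smul]
        congr 1
        rw [← Pi.single_smul, smul_eq_mul, mul_one]
      ext a
      rw [h1]
      simp only [Matrix.mulVec, dotProduct, Submodule.coe_sum, Submodule.coe_smul,
        Finset.sum_apply, Pi.smul_apply, smul_eq_mul]
      apply Finset.sum_congr rfl
      intro i _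
      rw [mul_comm]
    ext x
    constructor
    · rintro ⟨c, rfl⟩
      rw [Matrix.mulVecLin_apply, key]
      exact (φ.symm c).2
    · intro hx
      refine ⟨φ ⟨x, hx⟩, ?_⟩
      rw [Matrix.mulVecLin_apply, key, φ.symm_apply_apply]

private theorem proj_of_mem {p : ℕ} {V : Matrix (Fin N) (Fin p) ℂ} (hV : Vᴴ * V = 1)
    {x : Fin N → ℂ} (hx : x ∈ LinearMap.range (Matrix.mulVecLin V)) : V *ᵥ (Vᴴ *ᵥ x) = x := by
  obtain ⟨c, rfl⟩ := hx
  rw [Matrix.mulVecLin_apply, Matrix.mulVec_mulVec c Vᴴ V, hV, Matrix.one_mulVec]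

private theorem conj_mulVec {p : ℕ} (V : Matrix (Fin N) (Fin p) ℂ) (x : Fin N → ℂ) (i : Fin p) :
    (Vᴴ *ᵥ x) i = sip x (fun a => V a i) := by
  unfold sip
  simp only [Matrix.mulVec, dotProduct, Matrix.conjTranspose_apply]
  apply Finset.sum_congr rfl
  intro a _
  rw [mul_comm]

private theorem sip_mulVec {p : ℕ} (V : Matrix (Fin N) (Fin p) ℂ) (z : Fin N → ℂ) (c : Fin p → ℂ) :
    sip z (V *ᵥ c) = ∑ i, (Vᴴ *ᵥ z) i * star (c i) := by
  unfold sip
  simp only [Matrix.mulVec, dotProduct, Matrix.conjTranspose_apply]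
  have h1 : ∀ a, z a * star (∑ i, V a i * c i) = ∑ i, star (V a i) * z a * star (c i) := by
    intro a
    rw [star_sum, Finset.mul_sum]
    apply Finset.sum_congr rfl
    intro i _
    rw [star_mul']
    ring
  simp only [h1]
  rw [Finset.sum_comm]
  apply Finset.sum_congr rfl
  intro i _
  rw [Finset.sum_mul]

private theorem col_eq {p : ℕ} (V : Matrix (Fin N) (Fin p) ℂ) (i : Fin p) :
    V *ᵥ (Pi.single i 1) = fun a => V a i := by
  ext a
  rw [Matrix.mulVec_single_one]
  rfl

private theorem col_mem {p : ℕ} (V : Matrix (Fin N) (Fin p) ℂ) (i : Fin p) :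
    (fun a => V a i) ∈ LinearMap.range (Matrix.mulVecLin V) := by
  refine ⟨Pi.single i 1, ?_⟩
  rw [Matrix.mulVecLin_apply, col_eq]

/-- adapted orthonormal bases -/
theorem adapt (M : ℕ) (F : ℕ → Submodule ℂ (Fin N → ℂ)) (hF : Antitone F) (h0 : F 0 = ⊤)
    (hM : F M = ⊥) : ∃ (s : Fin N → Fin N → ℂ) (lam : Fin N → ℕ),
      (∀ i j, sip (s i) (s j) = if i = j then 1 else 0) ∧ (∀ j, lam j < M) ∧
      ∀ l, F l = Submodule.span ℂ (s '' {j | l ≤ lam j}) := by
  classical
  let G : ℕ → Submodule ℂ (Fin N → ℂ) := fun l =>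
    { carrier := {x | x ∈ F l ∧ ∀ y ∈ F (l + 1), sip x y = 0}
      add_mem' := by
        rintro x x' ⟨h1, h2⟩ ⟨h1', h2'⟩
        refine ⟨(F l).add_mem h1 h1', ?_⟩
        intro y hy
        rw [sip_add, h2 y hy, h2' y hy, add_zero]
      zero_mem' := ⟨(F l).zero_mem, fun y _ => sip_zero y⟩
      smul_mem' := by
        rintro c x ⟨h1, h2⟩
        refine ⟨(F l).smul_mem c h1, ?_⟩
        intro y hy
        rw [sip_smul, h2 y hy, mul_zero] }
  choose V hV1 hV2 using fun l => iso_of_sub (G l)
  let t : (Σ l : Fin M, Fin (Module.finrank ℂ (G l))) → Fin N → ℂ := fun x a => V x.1 a x.2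
  have htG : ∀ x, t x ∈ G x.1 := by
    intro x
    exact (hV2 x.1).le (col_mem (V x.1) x.2)
  have ht0 : ∀ x y : (Σ l : Fin M, Fin (Module.finrank ℂ (G l))), (x.1 : ℕ) < y.1 →
      sip (t x) (t y) = 0 := by
    intro x y hxy
    exact (htG x).2 (t y) (hF (Nat.succ_le_of_lt hxy) (htG y).1)
  have hon : ∀ x y, sip (t x) (t y) = if x = y then 1 else 0 := by
    intro x y
    rcases lt_trichotomy (x.1 : ℕ) y.1 with h | h | h
    · rw [ht0 x y h, if_neg]
      rintro rfl
      exact lt_irrefl _ h
    · obtain ⟨l, i⟩ := x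
      obtain ⟨l', i'⟩ := y
      have hl : l = l' := Fin.ext h
      subst hl
      have h1 : sip (t ⟨l, i⟩) (t ⟨l, i'⟩) = ((V l)ᴴ * V l) i' i := by
        unfold sip
        rw [Matrix.mul_apply]
        apply Finset.sum_congr rfl
        intro a _
        rw [Matrix.conjTranspose_apply, mul_comm]
      rw [h1, hV1, Matrix.one_apply]
      by_cases hi : i = i'
      · subst hi
        simp
      · rw [if_neg (Ne.symm hi), if_neg]
        intro h2
        exact hi (eq_of_heq (Sigma.mk.inj_iff.1 h2).2)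
    · rw [sip_symm, ht0 y x h, star_zero, if_neg]
      rintro rfl
      exact lt_irrefl _ h
  have hle : ∀ l, Submodule.span ℂ (t '' {x | l ≤ (x.1 : ℕ)}) ≤ F l := by
    intro l
    rw [Submodule.span_le]
    rintro _ ⟨x, hx, rfl⟩
    exact hF hx (htG x).1
  have hge : ∀ d l, l + d = M → F l ≤ Submodule.span ℂ (t '' {x | l ≤ (x.1 : ℕ)}) := by
    intro d
    induction d with
    | zero =>
      intro l hl
      rw [add_zero] at hl
      rw [hl, hM]
      exact bot_le
    | succ d ih =>
      intro l hl x hx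
      have ih' := ih (l + 1) (by omega)
      obtain ⟨U, hU1, hU2⟩ := iso_of_sub (F (l + 1))
      have hP : U *ᵥ (Uᴴ *ᵥ x) ∈ F (l + 1) := hU2.le ⟨Uᴴ *ᵥ x, rfl⟩
      have hR : x - U *ᵥ (Uᴴ *ᵥ x) ∈ G l := by
        refine ⟨(F l).sub_mem hx (hF (Nat.le_succ l) hP), ?_⟩
        intro y hy
        obtain ⟨c, rfl⟩ := hU2.ge hy
        rw [Matrix.mulVecLin_apply, sip_mulVec]
        have h1 : Uᴴ *ᵥ (x - U *ᵥ (Uᴴ *ᵥ x)) = 0 := by
          rw [Matrix.mulVec_sub, Matrix.mulVec_mulVec _ Uᴴ U, hU1, Matrix.one_mulVec, sub_self]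
        rw [h1]
        simp
      have hlM : l < M := by omega
      have hR2 : x - U *ᵥ (Uᴴ *ᵥ x) ∈ Submodule.span ℂ (t '' {x | l ≤ (x.1 : ℕ)}) := by
        obtain ⟨c, hc⟩ := (hV2 l).ge hR
        rw [← hc, Matrix.mulVecLin_apply]
        have h2 : V l *ᵥ c = ∑ i, c i • (fun a => V l a i) := by
          ext a
          simp only [Matrix.mulVec, dotProduct, Finset.sum_apply, Pi.smul_apply, smul_eq_mul]
          apply Finset.sum_congr rfl
          intro i _
          rw [mul_comm]
        rw [h2]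
        apply Submodule.sum_mem
        intro i _
        apply Submodule.smul_mem
        apply Submodule.subset_span
        exact ⟨⟨⟨l, hlM⟩, i⟩, le_refl l, rfl⟩
      have hmono : Submodule.span ℂ (t '' {x | l + 1 ≤ (x.1 : ℕ)})
          ≤ Submodule.span ℂ (t '' {x | l ≤ (x.1 : ℕ)}) := by
        apply Submodule.span_mono
        apply Set.image_mono
        intro z hz
        exact (Nat.le_succ l).trans hz
      have h3 := Submodule.add_mem _ hR2 (hmono (ih' hP))
      rwa [sub_add_cancel] at h3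
  have heq : ∀ l, F l = Submodule.span ℂ (t '' {x | l ≤ (x.1 : ℕ)}) := by
    intro l
    rcases le_or_gt l M with h | h
    · exact le_antisymm (hge (M - l) l (by omega)) (hle l)
    · apply le_antisymm _ (hle l)
      refine (hF h.le).trans ?_
      rw [hM]
      exact bot_le
  have hli : LinearIndependent ℂ t := by
    rw [Fintype.linearIndependent_iff]
    intro c hc j
    have h1 := congrArg (fun z => sip z (t j)) hc
    simp only [sip_sum, sip_smul, hon, sip_zero] at h1
    simpa using h1
  have hspan : (⊤ : Submodule ℂ (Fin N → ℂ)) ≤ Submodule.span ℂ (Set.range t) := by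
    rw [← h0, heq 0]
    apply Submodule.span_mono
    exact Set.image_subset_range _ _
  have hcard : Fintype.card (Σ l : Fin M, Fin (Module.finrank ℂ (G l))) = N := by
    have h1 := Module.finrank_eq_card_basis (Module.Basis.mk hli hspan)
    rw [Module.finrank_fin_fun] at h1
    exact h1.symm
  let e : Fin N ≃ (Σ l : Fin M, Fin (Module.finrank ℂ (G l))) := (Fintype.equivFinOfCardEq hcard).symm
  refine ⟨fun j => t (e j), fun j => (e j).1, ?_, ?_, ?_⟩
  · intro i j
    rw [hon]
    by_cases hij : i = j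
    · subst hij
      simp
    · rw [if_neg hij, if_neg (fun h => hij (e.injective h))]
  · intro j
    exact (e j).1.2
  · intro l
    rw [heq l]
    congr 1
    ext z
    constructor
    · rintro ⟨x, hx, rfl⟩
      refine ⟨e.symm x, ?_, ?_⟩
      · show l ≤ ((e (e.symm x)).1 : ℕ)
        rw [e.apply_symm_apply]
        exact hx
      · show t (e (e.symm x)) = t x
        rw [e.apply_symm_apply]
    · rintro ⟨j, hj, rfl⟩
      exact ⟨e j, hj, rfl⟩

/-- the Hilbert-Schmidt norm in an orthonormal basis -/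
theorem hs_onb (K : Matrix (Fin N) (Fin N) ℂ) (s : Fin N → Fin N → ℂ)
    (hs' : ∀ i j, sip (s i) (s j) = if i = j then 1 else 0) :
    hs K = ∑ j, ∑ a, ‖(K *ᵥ s j) a‖ ^ 2 := by
  let S : Matrix (Fin N) (Fin N) ℂ := fun a j => s j a
  have h1 : Sᴴ * S = 1 := by
    ext i j
    rw [Matrix.mul_apply, Matrix.one_apply]
    have h2 := hs' j i
    unfold sip at h2
    have h3 : ∑ a, Sᴴ i a * S a j = ∑ a, s j a * star (s i a) := by
      apply Finset.sum_congr rfl
      intro a _
      rw [Matrix.conjTranspose_apply, mul_comm]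
    rw [h3, h2]
    by_cases hij : i = j
    · subst hij
      simp
    · rw [if_neg hij, if_neg (Ne.symm hij)]
  have h2 : S * Sᴴ = 1 := mul_eq_one_comm.1 h1
  have h3 : (K * S) * (K * S)ᴴ = K * Kᴴ := by
    rw [Matrix.conjTranspose_mul, Matrix.mul_assoc, ← Matrix.mul_assoc S, h2, Matrix.one_mul]
  have h4 : ∀ (A : Matrix (Fin N) (Fin N) ℂ) a, ((A * Aᴴ) a a) = ((∑ b, ‖A a b‖ ^ 2 : ℝ) : ℂ) := by
    intro A a
    rw [Matrix.mul_apply]
    push_cast
    apply Finset.sum_congr rfl
    intro b _
    rw [Matrix.conjTranspose_apply]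
    exact Complex.mul_conj' _
  have h5 : ∀ j a, (K *ᵥ s j) a = (K * S) a j := by
    intro j a
    rw [Matrix.mul_apply]
    rfl
  simp only [h5]
  rw [Finset.sum_comm]
  unfold hs
  apply Finset.sum_congr rfl
  intro a _
  have h6 : ((∑ b, ‖K a b‖ ^ 2 : ℝ) : ℂ) = ((∑ b, ‖(K * S) a b‖ ^ 2 : ℝ) : ℂ) := by
    rw [← h4, ← h4, h3]
  exact_mod_cast h6

theorem hWEX (hORT : StORT) (hPJZ : StPJZ) : StWEX := by
  classical
  intro N M F hF h0 hM
  choose V hV1 hV2 using fun l : ℕ => iso_of_sub (F l)
  let w : WF N :=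
    { m := M
      p := fun i => Module.finrank ℂ (F ((i : ℕ) + 1))
      V := fun i => V ((i : ℕ) + 1)
      c := fun _ => 1
      c0 := 0 }
  have hnest : ∀ l l' : ℕ, F l ≤ F l' → ∃ X : Matrix (Fin (Module.finrank ℂ (F l')))
      (Fin (Module.finrank ℂ (F l))) ℂ, V l = V l' * X := by
    intro l l' hll
    refine ⟨(V l')ᴴ * V l, ?_⟩
    apply Matrix.ext_of_mulVec_single
    intro i
    rw [← Matrix.mulVec_mulVec, ← Matrix.mulVec_mulVec]
    symm
    apply proj_of_mem (hV1 l')
    apply (hV2 l').ge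
    apply hll
    apply (hV2 l).le
    exact ⟨Pi.single i 1, rfl⟩
  refine ⟨w, ⟨?_, ?_, ?_⟩, rfl, fun _ => rfl, rfl, ?_, ?_⟩
  · intro i
    exact hV1 _
  · intro i
    exact zero_le_one
  · intro i j
    rcases le_total ((i : ℕ) + 1) ((j : ℕ) + 1) with h | h
    · right
      exact hnest _ _ (hF h)
    · left
      exact hnest _ _ (hF h)
  · intro i
    exact hV2 _
  · intro σ hσ
    have hσd : IsUnit σ.det := (Matrix.isUnit_iff_isUnit_det σ).1 hσ
    have hσs : Function.Surjective (Matrix.mulVecLin σ) := by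
      intro y
      refine ⟨σ⁻¹ *ᵥ y, ?_⟩
      rw [Matrix.mulVecLin_apply, Matrix.mulVec_mulVec, Matrix.mul_nonsing_inv σ hσd, Matrix.one_mulVec]
    constructor
    · obtain ⟨s, lam, h1, h2, h3⟩ := adapt M (fun l => Submodule.map (Matrix.mulVecLin σ) (F l))
        (fun l l' h => Submodule.map_mono (hF h))
        (by
          show Submodule.map (Matrix.mulVecLin σ) (F 0) = ⊤
          rw [h0, Submodule.map_top, LinearMap.range_eq_top.2 hσs])
        (by
          show Submodule.map (Matrix.mulVecLin σ) (F M) = ⊥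
          rw [hM, Submodule.map_bot])
      exact ⟨s, lam, h1, h2, h3⟩
    · intro s lam hon hlam had W
      have hon' : ∀ i j, sip (s i) (s j) = if i = j then 1 else 0 := hon
      -- the projections
      have hpj : ∀ (i : Fin M) (j : Fin N), pj (σ * V ((i : ℕ) + 1)) *ᵥ s j =
          if (i : ℕ) + 1 ≤ lam j then s j else 0 := by
        intro i j
        obtain ⟨V', T, hV', hT, hVT⟩ := hORT N _ σ (V ((i : ℕ) + 1)) hσ (hV1 _)
        obtain ⟨hp, -, -⟩ := hPJZ N _ (σ * V ((i : ℕ) + 1)) V' T hV' hT hVT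
        have hTd : IsUnit T.det := (Matrix.isUnit_iff_isUnit_det T).1 hT
        have hr : LinearMap.range (Matrix.mulVecLin V') =
            Submodule.map (Matrix.mulVecLin σ) (F ((i : ℕ) + 1)) := by
          apply le_antisymm
          · rintro _ ⟨c, rfl⟩
            refine ⟨V ((i : ℕ) + 1) *ᵥ (T⁻¹ *ᵥ c), (hV2 _).le ⟨_, rfl⟩, ?_⟩
            rw [Matrix.mulVecLin_apply, Matrix.mulVecLin_apply, Matrix.mulVec_mulVec, hVT,
              Matrix.mulVec_mulVec, Matrix.mul_assoc, Matrix.mul_nonsing_inv T hTd, Matrix.mul_one]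
          · rintro _ ⟨x, hx, rfl⟩
            obtain ⟨c, rfl⟩ := (hV2 _).ge hx
            refine ⟨T *ᵥ c, ?_⟩
            rw [Matrix.mulVecLin_apply, Matrix.mulVecLin_apply, Matrix.mulVecLin_apply,
              Matrix.mulVec_mulVec, Matrix.mulVec_mulVec, hVT]
        rw [hp, ← Matrix.mulVec_mulVec]
        by_cases hij : (i : ℕ) + 1 ≤ lam j
        · rw [if_pos hij]
          apply proj_of_mem hV'
          rw [hr, had]
          exact Submodule.subset_span ⟨j, hij, rfl⟩
        · rw [if_neg hij]
          have hz : V'ᴴ *ᵥ s j = 0 := by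
            ext k
            rw [conj_mulVec]
            have hk : (fun a => V' a k) ∈ Submodule.span ℂ (s '' {j | (i : ℕ) + 1 ≤ lam j}) := by
              rw [← had, ← hr]
              exact col_mem V' k
            have hall : ∀ y ∈ Submodule.span ℂ (s '' {j | (i : ℕ) + 1 ≤ lam j}), sip y (s j) = 0 := by
              intro y hy
              induction hy using Submodule.span_induction with
              | mem y hy =>
                obtain ⟨j', hj', rfl⟩ := hy
                rw [hon', if_neg]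
                rintro rfl
                exact hij hj'
              | zero => exact sip_zero _
              | add x y _ _ hx hy => rw [sip_add, hx, hy, add_zero]
              | smul c x _ hx => rw [sip_smul, hx, mul_zero]
            rw [sip_symm, hall _ hk, star_zero]
            rfl
          rw [hz, Matrix.mulVec_zero]
      have hL : ∀ j, w.L σ *ᵥ s j = (lam j : ℂ) • s j := by
        intro j
        have h1 : w.L σ = ∑ i : Fin M, pj (σ * V ((i : ℕ) + 1)) := by
          unfold WF.L
          show ∑ i : Fin M, (((1 : ℝ) : ℂ)) • pj (σ * V ((i : ℕ) + 1)) + ((0 : ℝ) : ℂ) • (1 : Matrix (Fin N) (Fin N) ℂ) = _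
          rw [Complex.ofReal_zero, zero_smul, add_zero, Complex.ofReal_one]
          simp only [one_smul]
        rw [h1, Matrix.sum_mulVec]
        simp only [hpj]
        rw [Fin.sum_univ_eq_sum_range (fun i => if i + 1 ≤ lam j then s j else 0) M,
          ← Finset.sum_filter, Finset.sum_const]
        have h2 : ((Finset.range M).filter fun i => i + 1 ≤ lam j) = Finset.range (lam j) := by
          ext i
          simp only [Finset.mem_filter, Finset.mem_range]
          have := hlam j
          omega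
        rw [h2, Finset.card_range, Nat.cast_smul_eq_nsmul]
      rw [hs_onb _ s hon']
      apply Finset.sum_congr rfl
      intro j _
      apply Finset.sum_congr rfl
      intro a _
      rw [Matrix.sub_mulVec, hL, Pi.sub_apply, Pi.smul_apply, smul_eq_mul, norm_sub_rev]

end Pool.Agent.Helper2.KP
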